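import Pool.Agent.R548.BL.KEY
import Pool.Agent.R548.BL.ID
import Pool.Agent.R548.BL.MOM
import Pool.Agent.R548.BL.MAT
import Pool.Agent.R548.BL.LAW
import Pool.Agent.R548.BL.FIN

/-! # MP_1e2081_pr, Q2: the answer is no.
Two urns, `n` balls each, `μ` the point mass on `(1 2)`, `k_n = ⌊n/2⌋` balls moved from each urn:
no cutoff, and the mixing time is bounded along the even `n`. -/

open Filter Topology
open Pool.Agent.R548.BL

namespace Pool.Agent.Results.MP_1e2081_pr.NoCutoff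

theorem bounds (h : ℕ) (hh : 2 ≤ h) (t : ℝ) (ht : 0 ≤ t) :
    dmax (M (2 * h) h) (st (2 * h)) t ≤ Real.exp (-t) * (1 + t + t ^ 2 / 2) + 3 / √(h : ℝ) ∧
      ∀ a, Real.exp (-t) - st (2 * h) a ≤ dmax (M (2 * h) h) (st (2 * h)) t := by
  obtain ⟨m1, m2, m3, m4, m5, m6⟩ := mat h (by omega)
  refine law_proof (2 * h + 1) (M (2 * h) h) (st (2 * h)) (3 / √(h : ℝ)) (by omega) (by positivity)
    m1 m2 m3 m4 m5 ?_ t ht
  intro f hf a b
  set F : ℕ → ℝ := fun i => if hi : i < 2 * h + 1 then f ⟨i, hi⟩ else 0 with hF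
  have hF01 : ∀ i, 0 ≤ F i ∧ F i ≤ 1 := by
    intro i
    by_cases hi : i < 2 * h + 1
    · simp only [hF, hi, dif_pos]
      exact hf _
    · have e : F i = 0 := dif_neg hi
      rw [e]
      exact ⟨le_rfl, zero_le_one⟩
  have hFf : f = fun c : Fin (2 * h + 1) => F c := by
    funext c
    exact (dif_pos c.2 : F c = f ⟨c, c.2⟩).symm
  have hT : ∀ G : ℕ → ℝ, Matrix.mulVec (M (2 * h) h) (fun c : Fin (2 * h + 1) => G c) =
      fun c : Fin (2 * h + 1) => T h G c := fun G => funext fun c => m6 G c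
  have h3 : Matrix.mulVec (M (2 * h) h ^ 3) f = fun c : Fin (2 * h + 1) => T h (T h (T h F)) c := by
    rw [pow_succ, pow_succ, pow_one, ← Matrix.mulVec_mulVec, ← Matrix.mulVec_mulVec, hFf, hT, hT, hT]
  have h4 : ∀ c, ∑ d, (M (2 * h) h ^ 3) c d * f d = T h (T h (T h F)) c := fun c => congrFun h3 c
  rw [h4, h4]
  exact key Pool.Agent.R548.BL.id mom h hh F hF01 a b (by omega) (by omega)

theorem result :
    (∀ n : ℕ, 2 ≤ n → (1 / 4 : ℝ) * n ≤ ((n / 2 : ℕ) : ℝ) ∧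
      ((n / 2 : ℕ) : ℝ) ≤ (1 - 1 / 4) * n) ∧
    (∀ h : ℕ, 1 ≤ h → (∀ a b, 0 ≤ M (2 * h) h a b) ∧ (∀ a, ∑ b, M (2 * h) h a b = 1) ∧
      (∀ b, 0 ≤ st (2 * h) b) ∧ (∑ b, st (2 * h) b = 1) ∧
      (∀ b, ∑ a, st (2 * h) a * M (2 * h) h a b = st (2 * h) b)) ∧
    (∀ h : ℕ, 2 ≤ h → ∀ t : ℝ, 0 ≤ t →
      dmax (M (2 * h) h) (st (2 * h)) t ≤
        Real.exp (-t) * (1 + t + t ^ 2 / 2) + 3 / √(h : ℝ)) ∧
    (∀ᶠ h : ℕ in atTop, tmix (M (2 * h) h) (st (2 * h)) (1 / 4) ≤ 8 ∧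
      3 ≤ tmix (M (2 * h) h) (st (2 * h)) (1 / 100) ∧
      tmix (M (2 * h) h) (st (2 * h)) (99 / 100) ≤ 1) ∧
    (¬ Tendsto (fun n : ℕ => tmix (M n (n / 2)) (st n) (1 / 100) /
      tmix (M n (n / 2)) (st n) (99 / 100)) atTop (𝓝 1)) ∧
    ¬ ∃ c : ℝ, 0 < c ∧ ∀ᶠ n : ℕ in atTop, c * Real.log n ≤ tmix (M n (n / 2)) (st n) (1 / 4) := by
  have hfin := fin (fun h hh t ht => bounds h hh t ht)
  refine ⟨?_, ?_, fun h hh t ht => (bounds h hh t ht).1, hfin.1, hfin.2.1, hfin.2.2⟩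
  · intro n hn
    have h1 : n ≤ 4 * (n / 2) := by omega
    have h2 : 4 * (n / 2) ≤ 3 * n := by omega
    have h1' : (n : ℝ) ≤ 4 * ((n / 2 : ℕ) : ℝ) := by exact_mod_cast h1
    have h2' : 4 * ((n / 2 : ℕ) : ℝ) ≤ 3 * n := by exact_mod_cast h2
    constructor <;> linarith
  · intro h hh
    obtain ⟨m1, m2, m3, m4, m5, -⟩ := mat h hh
    exact ⟨m1, m2, m3, m4, m5⟩

end Pool.Agent.Results.MP_1e2081_pr.NoCutoff
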